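import Pool.Agent.N874.PM.Stm
import Pool.Agent.N498.PP.Exs

/-!
# Project PM: primes of `k[X]` modulo which `g` splits (helper2)
-/

set_option autoImplicit false

open Polynomial
open Pool.Agent.N874.PM Pool.Agent.N874.PP
open scoped IntermediateField

namespace Pool.Agent.N2.PM

theorem splitMod_of_splits {k : Type} [Field k] (Q : k[X]) (hQ : (Ideal.span {Q}).IsMaximal)
    (g : k[X][X]) (hg : g.Monic)
    (hs : (g.map (Ideal.Quotient.mk (Ideal.span {Q}))).Splits) : SplitMod Q g := by
  let _ := Ideal.Quotient.field (Ideal.span {Q})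
  have h1 := hs.eq_prod_roots_of_monic (hg.map _)
  have hsurj : Function.Surjective (Ideal.Quotient.mk (Ideal.span {Q})) :=
    Ideal.Quotient.mk_surjective
  refine ⟨((g.map (Ideal.Quotient.mk (Ideal.span {Q}))).roots).map (Function.surjInv hsurj), ?_⟩
  have h2 : (((((g.map (Ideal.Quotient.mk (Ideal.span {Q}))).roots).map
      (Function.surjInv hsurj)).map fun c => X - C c).prod).map
        (Ideal.Quotient.mk (Ideal.span {Q})) = g.map (Ideal.Quotient.mk (Ideal.span {Q})) := by
    conv_rhs => rw [h1]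
    rw [Polynomial.map_multiset_prod, Multiset.map_map, Multiset.map_map]
    congr 1
    refine Multiset.map_congr rfl fun x _ => ?_
    simp only [Function.comp_apply, Polynomial.map_sub, map_X, map_C]
    rw [Function.surjInv_eq hsurj x]
  have h3 : C Q ∣ g - ((((g.map (Ideal.Quotient.mk (Ideal.span {Q}))).roots).map
      (Function.surjInv hsurj)).map fun c => X - C c).prod := by
    rw [C_dvd_iff_dvd_coeff]
    intro i
    rw [← Ideal.mem_span_singleton, ← Ideal.Quotient.eq_zero_iff_mem, coeff_sub, map_sub,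
      ← coeff_map, ← coeff_map, h2, sub_self]
  obtain ⟨h, hh⟩ := h3
  exact ⟨h, by rw [← hh]; ring⟩

theorem claim1 {k K M : Type} [Field k] [Field K] [Algebra k[X] K]
    [IsFractionRing k[X] K] [Field M] [Algebra K M] [Algebra k[X] M] [IsScalarTower k[X] K M]
    [FiniteDimensional K M] [IsGalois K M] (γ : M) (g : k[X][X]) (δ : k[X])
    (hG : Gen K γ g δ) (hd : g.natDegree = Module.finrank K M) :
    ∃ Δ : k[X], Δ ≠ 0 ∧ ∀ Q : k[X], Irreducible Q → ¬ Q ∣ Δ → ∀ c : k[X], Q ∣ g.eval c →
      SplitMod Q g := by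
  have hRK : Function.Injective (algebraMap k[X] K) := IsFractionRing.injective k[X] K
  have hRM : Function.Injective (algebraMap k[X] M) := by
    rw [IsScalarTower.algebraMap_eq k[X] K M]
    exact (algebraMap K M).injective.comp hRK
  have hint : IsIntegral K γ := Algebra.IsIntegral.isIntegral γ
  have hmin : g.map (algebraMap k[X] K) = minpoly K γ := by
    refine (eq_of_monic_of_dvd_of_natDegree_le (minpoly.monic hint) (hG.monic.map _) ?_ ?_)
    · apply minpoly.dvd
      rw [aeval_map_algebraMap]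
      exact hG.root
    · rw [hG.monic.natDegree_map, hd, (Field.primitive_element_iff_minpoly_natDegree_eq K γ).1 hG.top]
  have hroot : eval₂ (algebraMap k[X] M) γ g = 0 := hG.root
  set ι : AdjoinRoot g →+* M := AdjoinRoot.lift (algebraMap k[X] M) γ hroot with hι
  have hιinj : Function.Injective ι := by
    rw [injective_iff_map_eq_zero]
    intro a ha
    obtain ⟨p, rfl⟩ := AdjoinRoot.mk_surjective a
    rw [hι, AdjoinRoot.lift_mk] at ha
    rw [AdjoinRoot.mk_eq_zero, ← Polynomial.map_dvd_map _ hRK hG.monic, hmin]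
    apply minpoly.dvd
    rw [aeval_map_algebraMap]
    exact ha
  have hden : ∀ m : M, ∃ (Δ : k[X]) (a : AdjoinRoot g), Δ ≠ 0 ∧ ι a = algebraMap k[X] M Δ * m := by
    intro m
    have h1 : m ∈ K⟮γ⟯.toSubalgebra := by
      rw [hG.top]; exact Algebra.mem_top
    rw [IntermediateField.adjoin_simple_toSubalgebra_of_isAlgebraic hint.isAlgebraic,
      Algebra.adjoin_singleton_eq_range_aeval] at h1
    obtain ⟨p, hp⟩ := h1
    obtain ⟨b, hb, hb2⟩ := IsLocalization.integerNormalization_spec (nonZeroDivisors k[X]) p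
    refine ⟨b, AdjoinRoot.mk g (IsLocalization.integerNormalization (nonZeroDivisors k[X]) p),
      nonZeroDivisors.ne_zero hb, ?_⟩
    rw [hι, AdjoinRoot.lift_mk]
    have h2 : eval₂ (algebraMap k[X] M) γ
        (IsLocalization.integerNormalization (nonZeroDivisors k[X]) p) =
        aeval γ ((IsLocalization.integerNormalization (nonZeroDivisors k[X]) p).map
          (algebraMap k[X] K)) := by
      rw [aeval_map_algebraMap]; rfl
    rw [h2, hb2, ← hp]
    have h3 : b • p = C (algebraMap k[X] K b) * p := by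
      rw [← smul_eq_C_mul, algebraMap_smul]
    rw [h3, map_mul, aeval_C, ← IsScalarTower.algebraMap_apply]
    rfl
  choose Δ a hΔ ha using hden
  set rts : Multiset M := (g.map (algebraMap k[X] M)).roots with hrts
  have hsp : g.map (algebraMap k[X] M) = (rts.map fun m => X - C m).prod := by
    have h1 := IsGalois.splits K γ
    rw [← hmin, Polynomial.map_map, ← IsScalarTower.algebraMap_eq] at h1
    exact h1.eq_prod_roots_of_monic (hG.monic.map _)
  have key : C ((rts.map fun m => AdjoinRoot.of g (Δ m)).prod) * g.map (AdjoinRoot.of g) =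
      (rts.map fun m => C (AdjoinRoot.of g (Δ m)) * X - C (a m)).prod := by
    apply Polynomial.map_injective ι hιinj
    have hcomp : ι.comp (AdjoinRoot.of g) = algebraMap k[X] M := by
      ext x <;> simp [hι]
    rw [Polynomial.map_mul, Polynomial.map_map, hcomp, hsp, map_C, Polynomial.map_multiset_prod,
      Multiset.map_map, map_multiset_prod, Multiset.map_map, map_multiset_prod C, Multiset.map_map,
      ← Multiset.prod_map_mul]
    congr 1
    refine Multiset.map_congr rfl fun m _ => ?_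
    have hofm : ι (AdjoinRoot.of g (Δ m)) = algebraMap k[X] M (Δ m) := by
      rw [← hcomp]; rfl
    simp only [Function.comp_apply, Polynomial.map_sub, Polynomial.map_mul, map_X, map_C, ha, hofm,
      C_mul]
    ring
  refine ⟨(rts.map Δ).prod, ?_, ?_⟩
  · rw [Ne, Multiset.prod_eq_zero_iff]
    intro h0
    obtain ⟨m, _, hm⟩ := Multiset.mem_map.1 h0
    exact hΔ m hm
  · intro Q hQ hQΔ c hc
    have hmax : (Ideal.span {Q}).IsMaximal := PrincipalIdealRing.isMaximal_of_irreducible hQ
    apply splitMod_of_splits Q hmax g hG.monic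
    let _ := Ideal.Quotient.field (Ideal.span {Q})
    set q := Ideal.Quotient.mk (Ideal.span {Q}) with hq
    have hqc : eval₂ q (q c) g = 0 := by
      rw [eval₂_at_apply]
      exact Ideal.Quotient.eq_zero_iff_mem.2 (Ideal.mem_span_singleton.2 hc)
    set φ : AdjoinRoot g →+* (k[X] ⧸ Ideal.span {Q}) := AdjoinRoot.lift q (q c) hqc with hφ
    have hcomp : φ.comp (AdjoinRoot.of g) = q := by
      ext x <;> simp [hφ]
    have h1 := congrArg (Polynomial.map φ) key
    rw [Polynomial.map_mul, Polynomial.map_map, hcomp, map_C, Polynomial.map_multiset_prod,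
      Multiset.map_map] at h1
    have h2 : ((rts.map ((Polynomial.map φ) ∘ fun m => C (AdjoinRoot.of g (Δ m)) * X - C (a m))).prod).Splits := by
      apply Splits.multisetProd
      intro f hf
      obtain ⟨m, _, rfl⟩ := Multiset.mem_map.1 hf
      apply Splits.of_natDegree_le_one
      simp only [Function.comp_apply, Polynomial.map_sub, Polynomial.map_mul, map_X, map_C]
      refine (natDegree_sub_le _ _).trans ?_
      rw [natDegree_C, max_eq_left (Nat.zero_le _)]
      exact (natDegree_C_mul_le _ _).trans natDegree_X_le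
    rw [← h1] at h2
    refine (splits_mul_iff_right ?_ (Splits.C _)).1 h2
    rw [Ne, C_eq_zero, map_multiset_prod, Multiset.map_map]
    have h3 : (φ ∘ fun m => AdjoinRoot.of g (Δ m)) = q ∘ Δ := by
      funext m
      rw [← hcomp]; rfl
    rw [h3, ← Multiset.map_map, ← map_multiset_prod]
    intro h0
    exact hQΔ (Ideal.mem_span_singleton.1 (Ideal.Quotient.eq_zero_iff_mem.1 h0))

/-- infinitely many primes divide some value -/
theorem claim2 {k : Type} [Field k] [Finite k] (g : k[X][X]) (hg : g.Monic) (hd : g.natDegree ≠ 0)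
    (P₀ : k[X]) (hPi : P₀ ≠ 0) : ∃ Q c : k[X], Q.Monic ∧ Irreducible Q ∧ ¬ Q ∣ P₀ ∧ Q ∣ g.eval c := by
  classical
  have := Fintype.ofFinite k
  have hg0 : g ≠ 0 := hg.ne_zero
  obtain ⟨c₀, hc₀⟩ : ∃ c, g.eval c ≠ 0 := by
    by_contra! h
    exact hg0 (Polynomial.funext fun c => by rw [h c, eval_zero])
  set G : k[X][X] := g.comp (C c₀ + C (g.eval c₀ * P₀) * X) with hGdef
  have hlin : (C c₀ + C (g.eval c₀ * P₀) * X : k[X][X]).natDegree = 1 := by
    rw [add_comm]
    exact natDegree_linear (mul_ne_zero hc₀ hPi)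
  have hGd : G.natDegree ≠ 0 := by
    rw [hGdef, natDegree_comp, hlin, mul_one]
    exact hd
  have hne : (∏ e : k, (G - C (C e * g.eval c₀))) ≠ 0 := by
    rw [Finset.prod_ne_zero_iff]
    intro e _ h0
    rw [sub_eq_zero] at h0
    rw [h0, natDegree_C] at hGd
    exact hGd rfl
  obtain ⟨t, ht⟩ : ∃ t, (∏ e : k, (G - C (C e * g.eval c₀))).eval t ≠ 0 := by
    by_contra! h
    exact hne (Polynomial.funext fun c => by rw [h c, eval_zero])
  rw [eval_prod, Finset.prod_ne_zero_iff] at ht
  have hGt : G.eval t = g.eval (c₀ + g.eval c₀ * P₀ * t) := by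
    rw [hGdef, eval_comp]; simp
  obtain ⟨v, hv⟩ := sub_dvd_eval_sub (c₀ + g.eval c₀ * P₀ * t) c₀ g
  have hfac : G.eval t = g.eval c₀ * (1 + P₀ * (t * v)) := by
    rw [hGt]
    linear_combination hv
  set w : k[X] := 1 + P₀ * (t * v) with hw
  have hw2 : ∀ e : k, w ≠ C e := by
    intro e he
    apply ht e (Finset.mem_univ _)
    rw [eval_sub, eval_C, hfac, he]
    ring
  have hw0 : w ≠ 0 := by
    have := hw2 0
    rwa [C_0] at this
  have hwu : ¬ IsUnit w := by
    intro h
    obtain ⟨e, _, he⟩ := Polynomial.isUnit_iff.1 h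
    exact hw2 e he.symm
  obtain ⟨Q, hQm, hQi, hQw⟩ := Polynomial.exists_monic_irreducible_factor w hwu
  refine ⟨Q, c₀ + g.eval c₀ * P₀ * t, hQm, hQi, ?_, ?_⟩
  · intro hQPi
    have h1 : Q ∣ 1 := by
      have h2 : (1 : k[X]) = w - P₀ * (t * v) := by rw [hw]; ring
      rw [h2]
      exact dvd_sub hQw (hQPi.mul_right _)
    exact hQi.not_isUnit (isUnit_of_dvd_one h1)
  · rw [← hGt, hfac]
    exact hQw.mul_left _

theorem spl : S_SPL := by
  classical
  intro k K M _ _ _ _ _ _ _ _ _ _ _ γ g δ h6 hG hd T r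
  obtain ⟨Δ, hΔ0, hΔ⟩ := claim1 γ g δ hG hd
  have hg0 : g.natDegree ≠ 0 := by
    rw [hd]; exact Module.finrank_pos.ne'
  have hinf : {Q : k[X] | Q.Monic ∧ Irreducible Q ∧ SplitMod Q g}.Infinite := by
    intro hfin
    set P₀ : k[X] := Δ * ∏ Q ∈ hfin.toFinset, Q with hPi
    have hPi0 : P₀ ≠ 0 := by
      refine mul_ne_zero hΔ0 (Finset.prod_ne_zero_iff.2 fun Q hQ => ?_)
      exact (hfin.mem_toFinset.1 hQ).1.ne_zero
    obtain ⟨Q, c, h1, h2, h3, h4⟩ := claim2 g hG.monic hg0 P₀ hPi0
    have h5 : SplitMod Q g := hΔ Q h2 (fun h => h3 (h.mul_right _)) c h4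
    apply h3
    exact (Finset.dvd_prod_of_mem _ (hfin.mem_toFinset.2 ⟨h1, h2, h5⟩)).mul_left _
  obtain ⟨S, hS1, hS2⟩ := (hinf.sdiff T.finite_toSet).exists_subset_card_eq r
  refine ⟨S, fun Q => if h : Q.Monic ∧ Irreducible Q then
    (Pool.Agent.N498.PP.exists_nonres k h6 Q h.1 h.2).choose else 0, ?_, hS2, ?_, ?_⟩
  · intro Q hQ
    have h := (hS1 hQ).1
    refine ⟨h.1, h.2.1, ?_⟩
    beta_reduce
    rw [dif_pos ⟨h.1, h.2.1⟩]
    exact (Pool.Agent.N498.PP.exists_nonres k h6 Q h.1 h.2.1).choose_spec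
  · rw [Finset.disjoint_left]
    intro Q hQ hQT
    exact (hS1 hQ).2 hQT
  · intro Q hQ
    exact (hS1 hQ).1.2.2

end Pool.Agent.N2.PM
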